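import Pool.Agent.Work.MP_40574a_nt.Main
import Pool.Agent.Work.MP_40574a_nt.AlmostMain

/-!
# MP_40574a_nt: an almost-prime version of the conjecture, for all large `n`

There are `c > 0` and `n₀` such that every `n ≥ n₀` with `4 ∤ n` has at least
`c √n / (log n)^4` different values `p = x + 2y + 5z`, taken over the representations
`n = x² + y² + z² + w²` with `x, y, z, w ∈ ℕ`, for which the product `(p-2) p (p+4) (p+10)` is
squarefree, has at most `16` prime factors, and has no prime factor `q` with `q^86 ≤ n`.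

Proof. For `p` coprime to `30` with `29 n ≤ p² ≤ 30 n` such a representation always exists
(reflections, Legendre's three squares theorem, see `Main.lean`). The values `p` are found in this
window by a sieve of dimension four: an abstract Brun-Hooley sieve (`BrunHooley.lean`) with
explicit parameters (`SieveMain.lean`), Mertens' theorems (`Mertens.lean`) and Richert's
logarithmic weights (`Weighted.lean`, `Almost.lean`).
-/

set_option autoImplicit false

namespace Pool.Agent.Results.MP_40574a_nt.AlmostPrimeQuadruples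

open Pool.Agent.Work.MP_40574a_nt

theorem result : ∃ c : ℝ, 0 < c ∧ ∃ n₀ : ℕ, ∀ n : ℕ, n₀ ≤ n → ¬ 4 ∣ n →
    ∃ T : Finset ℕ, c * Real.sqrt n / (Real.log n) ^ 4 ≤ (T.card : ℝ) ∧
      ∀ p ∈ T, (∃ x y z w : ℕ, n = x ^ 2 + y ^ 2 + z ^ 2 + w ^ 2 ∧ x + 2 * y + 5 * z = p) ∧
        2 < p ∧ Squarefree ((p - 2) * p * (p + 4) * (p + 10)) ∧
        ArithmeticFunction.cardFactors ((p - 2) * p * (p + 4) * (p + 10)) ≤ 16 ∧
        ∀ q : ℕ, q.Prime → q ∣ (p - 2) * p * (p + 4) * (p + 10) → n < q ^ 86 := by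
  obtain ⟨c, hc, n₀, h⟩ := AlmostMain.almost_main
  refine ⟨c, hc, n₀, fun n hn h4 => ?_⟩
  obtain ⟨T, hT, hT'⟩ := h n hn
  refine ⟨T, hT, fun p hp => ?_⟩
  obtain ⟨hp3, h29, h30, hcop, hsf, hcard, hq⟩ := hT' p hp
  refine ⟨?_, by omega, hsf, hcard, hq⟩
  have h2 : p % 2 = 1 := by
    have : Nat.Coprime p 2 := Nat.Coprime.coprime_dvd_right (by norm_num) hcop
    rw [Nat.coprime_comm, Nat.coprime_two_left, Nat.odd_iff] at this
    exact this
  have h3 : p % 3 ≠ 0 := by
    intro h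
    have h1 : 3 ∣ Nat.gcd p 30 := Nat.dvd_gcd (Nat.dvd_of_mod_eq_zero h) (by norm_num)
    rw [hcop] at h1
    omega
  have h5 : p % 5 ≠ 0 := by
    intro h
    have h1 : 5 ∣ Nat.gcd p 30 := Nat.dvd_gcd (Nat.dvd_of_mod_eq_zero h) (by norm_num)
    rw [hcop] at h1
    omega
  have hleZ : (p : ℤ) ^ 2 ≤ 30 * n := by exact_mod_cast h30
  obtain ⟨x, y, z, w, e1, e2, e3⟩ := main_int (n : ℤ) (p : ℤ) (by omega) (by omega) (by omega)
    (by omega) hleZ
  have h29' : 29 * (n : ℤ) ≤ (p : ℤ) ^ 2 := by exact_mod_cast h29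
  obtain ⟨hx, hy, hz⟩ := nonneg_of_range e1 e2 (by omega) h29'
  lift x to ℕ using hx
  lift y to ℕ using hy
  lift z to ℕ using hz
  lift w to ℕ using e3
  exact ⟨x, y, z, w, by exact_mod_cast e1, by exact_mod_cast e2⟩

end Pool.Agent.Results.MP_40574a_nt.AlmostPrimeQuadruples
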