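import Pool.Agent.Work.MP_40574a_nt.Main

/-!
# MP_40574a_nt: the values of `x + 2y + 5z` on representations as a sum of four squares

For `n` not divisible by `4` and every `p` coprime to `30` with `p ^ 2 ≤ 30 n` the number `n` is a
sum of four squares `x ^ 2 + y ^ 2 + z ^ 2 + w ^ 2` of integers with `x + 2y + 5z = p`, and if
moreover `29 n ≤ p ^ 2` then these integers are nonnegative. In particular, if `p - 2, p, p + 4,
p + 10` are all prime (with `p > 5`, which is automatic) then every `n` with `4 ∤ n` and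
`p ^ 2 / 30 ≤ n ≤ p ^ 2 / 29` has an admissible representation.

Proof idea. With `r = 2x - y`, `t = z - x - 2y` the problem becomes
`30 n - p ^ 2 = 6 r ^ 2 + 5 t ^ 2 + 30 w ^ 2`. The lattice of this form is the set of all
`(A, B, C) ∈ ℤ ^ 3` with `A = C mod 2`, `A + 2B + C = 0 mod 3`, `B = 2C mod 5`. The number
`N = 30 n - p ^ 2` is a sum of three squares (Legendre), and a given representation of `N` is moved
into the lattice by signed permutations and by reflections in the vectors `(1,1,1)`, `(-1,1,1)`;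
the only representations that resist are 3-adically close to multiples of `(-3,2,1)`, and there the
reflections decrease the closeness. (The genus of `5X^2+6Y^2+30Z^2` has more than one class.)
-/

set_option autoImplicit false

namespace Pool.Agent.Results.MP_40574a_nt.LinearFormValues

open Pool.Agent.Work.MP_40574a_nt

theorem result (n p : ℕ) (hn : ¬ 4 ∣ n) (hp : Nat.Coprime p 30) (hle : p ^ 2 ≤ 30 * n) :
    ∃ x y z w : ℤ, (n : ℤ) = x ^ 2 + y ^ 2 + z ^ 2 + w ^ 2 ∧ x + 2 * y + 5 * z = p ∧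
      (29 * n ≤ p ^ 2 → 0 ≤ x ∧ 0 ≤ y ∧ 0 ≤ z ∧ 0 ≤ w) := by
  have h2 : p % 2 = 1 := by
    have : Nat.Coprime p 2 := Nat.Coprime.coprime_dvd_right (by norm_num) hp
    rw [Nat.coprime_comm, Nat.coprime_two_left, Nat.odd_iff] at this
    exact this
  have h3 : p % 3 ≠ 0 := by
    intro h
    have h1 : 3 ∣ Nat.gcd p 30 := Nat.dvd_gcd (Nat.dvd_of_mod_eq_zero h) (by norm_num)
    rw [hp] at h1
    omega
  have h5 : p % 5 ≠ 0 := by
    intro h
    have h1 : 5 ∣ Nat.gcd p 30 := Nat.dvd_gcd (Nat.dvd_of_mod_eq_zero h) (by norm_num)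
    rw [hp] at h1
    omega
  have hleZ : (p : ℤ) ^ 2 ≤ 30 * n := by exact_mod_cast hle
  obtain ⟨x, y, z, w, e1, e2, e3⟩ := main_int (n : ℤ) (p : ℤ) (by omega) (by omega) (by omega)
    (by omega) hleZ
  refine ⟨x, y, z, w, e1, e2, fun h => ?_⟩
  have h29 : 29 * (n : ℤ) ≤ (p : ℤ) ^ 2 := by exact_mod_cast h
  obtain ⟨h1, h2, h3⟩ := nonneg_of_range e1 e2 (by omega) h29
  exact ⟨h1, h2, h3, e3⟩

end Pool.Agent.Results.MP_40574a_nt.LinearFormValues
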