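import Pool.Agent.Work.MP_40574a_nt.Main
import Pool.Agent.Work.MT.RoughG
import Pool.Agent.Work.MP_40574a_nt_pat.Wide
import Pool.Agent.Work.MP_40574a_nt_pat.Many
import Pool.Agent.Work.MP_40574a_nt_pat.AllWin

/-!
# MP_40574a_nt: a positive proportion of the patterns of primes among the values of `x + 2y + 5z`

For every `r` there are `k`, `c > 0` and for every `A` a `δ > 0` such that for all large `X` and
all large `N` at least `δ X ^ r` of the `r`-subsets `P` of `{0, …, X}` are good for every `n` of the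
whole interval `[N, A N]` with `4 ∤ n`: at least `κ √n / (log n) ^ k` numbers `m` have all `m + h`
(`h ∈ P`) prime and equal to `x + 2y + 5z` on a representation of `n` as a sum of four squares. At
least `δ X ^ r` fixed patterns do this for the intervals `[A ^ j, A ^ (j + 1)]`, for a set of `j` of
upper density at least `δ`. For every large `n` with `4 ∤ n` each admissible `k`-subset of
`{0, …, X}` contains a good `P`.
-/

set_option autoImplicit false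

namespace Pool.Agent.Results.MP_40574a_nt.PrimePatterns

open Pool.Agent.Work.MP_40574a_nt Pool.Agent.Work.MP_40574a_nt_pat Finset Filter Pool.Agent.MT

/-- `Good κ c k n H P`: at least `κ √n / (log n) ^ k` numbers `m` have all `m + h` (`h ∈ P`) prime
and, for each `h ∈ H`, the number `m + h` has no prime factor `≤ n ^ c` and equals `x + 2y + 5z` for
some `x, y, z, w` with `n = x² + y² + z² + w²`. -/
def Good (κ c : ℝ) (k n : ℕ) (H P : Finset ℕ) : Prop :=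
  ∃ T : Finset ℕ, κ * √(n : ℝ) / Real.log n ^ k ≤ (T.card : ℝ) ∧
    ∀ m ∈ T, (∀ h ∈ P, (m + h).Prime) ∧
      ∀ h ∈ H, (∀ q : ℕ, q.Prime → q ∣ m + h → (n : ℝ) ^ c < q) ∧
        ∃ x y z w : ℕ, n = x ^ 2 + y ^ 2 + z ^ 2 + w ^ 2 ∧ x + 2 * y + 5 * z = m + h

/-- a number coprime to `30` in the window is a value of the linear form -/
lemma value {n p : ℕ} (h4 : ¬ 4 ∣ n) (h30 : Nat.Coprime p 30) (hlow : 29 * n ≤ p ^ 2)
    (hup : p ^ 2 ≤ 30 * n) :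
    ∃ x y z w : ℕ, n = x ^ 2 + y ^ 2 + z ^ 2 + w ^ 2 ∧ x + 2 * y + 5 * z = p := by
  have h2 : p % 2 = 1 := by
    have : Nat.Coprime p 2 := Nat.Coprime.coprime_dvd_right (by norm_num) h30
    rw [Nat.coprime_comm, Nat.coprime_two_left, Nat.odd_iff] at this
    exact this
  have h3 : p % 3 ≠ 0 := by
    intro h
    have h1 : 3 ∣ Nat.gcd p 30 := Nat.dvd_gcd (Nat.dvd_of_mod_eq_zero h) (by norm_num)
    rw [h30] at h1
    omega
  have h5 : p % 5 ≠ 0 := by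
    intro h
    have h1 : 5 ∣ Nat.gcd p 30 := Nat.dvd_gcd (Nat.dvd_of_mod_eq_zero h) (by norm_num)
    rw [h30] at h1
    omega
  have hleZ : (p : ℤ) ^ 2 ≤ 30 * n := by exact_mod_cast hup
  obtain ⟨x, y, z, w, e1, e2, e3⟩ := main_int (n : ℤ) (p : ℤ) (by omega) (by omega) (by omega)
    (by omega) hleZ
  have h29' : 29 * (n : ℤ) ≤ (p : ℤ) ^ 2 := by exact_mod_cast hlow
  obtain ⟨hx, hy, hz⟩ := nonneg_of_range e1 e2 (by omega) h29'
  lift x to ℕ using hx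
  lift y to ℕ using hy
  lift z to ℕ using hz
  lift w to ℕ using e3
  exact ⟨x, y, z, w, by exact_mod_cast e1, by exact_mod_cast e2⟩

/-- A window at `M` serves all `n ∈ [M, 1.03 M]`. -/
theorem transfer {κ c : ℝ} (hκ : 0 < κ) (hc : 0 < c) {k M n : ℕ} {H P T : Finset ℕ} (hM : 3 ≤ M)
    (hMn : M ≤ n) (hnM : 100 * n ≤ 103 * M) (h4 : ¬ 4 ∣ n)
    (hT : κ * √(M : ℝ) / Real.log M ^ k ≤ (T.card : ℝ))
    (h : ∀ m ∈ T, (∀ h ∈ P, (m + h).Prime) ∧ ∀ h ∈ H, Win c M (m + h)) :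
    Good (κ / 2) (c / 2) k n H P := by
  have hM0 : (0 : ℝ) < M := by
    have : 0 < M := by omega
    exact_mod_cast this
  have hlM : 0 < Real.log M := Real.log_pos (by exact_mod_cast (by omega : 1 < M))
  have hln : Real.log M ≤ Real.log n := Real.log_le_log hM0 (by exact_mod_cast hMn)
  refine ⟨T, le_trans ?_ hT, fun m hm => ⟨(h m hm).1, fun a ha => ?_⟩⟩
  · have h1 : √(n : ℝ) ≤ 2 * √(M : ℝ) := by
      rw [Real.sqrt_le_left (by positivity), mul_pow, Real.sq_sqrt hM0.le]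
      have : n ≤ 2 ^ 2 * M := by omega
      exact_mod_cast this
    calc κ / 2 * √(n : ℝ) / Real.log n ^ k ≤ κ / 2 * (2 * √(M : ℝ)) / Real.log M ^ k := by gcongr
      _ = κ * √(M : ℝ) / Real.log M ^ k := by ring
  · obtain ⟨w1, w2, w3, w4⟩ := (h m hm).2 a ha
    refine ⟨fun q hq hqd => lt_of_le_of_lt ?_ (w4 q hq hqd), value h4 w1 (by omega) (by omega)⟩
    have h2 : (n : ℝ) ≤ (M : ℝ) ^ 2 := by
      have h3 : 3 * M ≤ M * M := Nat.mul_le_mul_right M hM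
      have h4 : n ≤ M ^ 2 := by
        rw [pow_two]
        omega
      exact_mod_cast h4
    calc (n : ℝ) ^ (c / 2) ≤ ((M : ℝ) ^ 2) ^ (c / 2) :=
          Real.rpow_le_rpow (Nat.cast_nonneg n) h2 (by positivity)
      _ = (M : ℝ) ^ c := by
          rw [← Real.rpow_natCast, ← Real.rpow_mul hM0.le]
          congr 1
          push_cast
          ring

/-- The assembly, from the uniform Maynard–Tao theorem. -/
theorem assembly {r k : ℕ} {D₁ : ℕ} {c₀ : ℝ} (hc₀ : 0 < c₀)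
    (hmt : ∀ (D : ℕ) (a : Fin k → ℕ) (C₀ : ℕ), D₁ ≤ D →
      ∃ κ : ℝ, 0 < κ ∧ ∃ N₀ : ℕ, ∀ N : ℕ, N₀ ≤ N → ∀ b : Fin k → ℕ, Forms k D a b →
      (∀ i, b i ≤ C₀ * N) → ∃ V : Finset ℕ, κ * N / Real.log N ^ k ≤ V.card ∧
        ∀ m ∈ V, m ∈ Ioc N (2 * N) ∧
          r ≤ (univ.filter (fun i => (a i * m + b i).Prime)).card ∧
          ∀ i, ∀ q : ℕ, q.Prime → q ∣ a i * m + b i → (N : ℝ) ^ c₀ < q) (A : ℕ) (hA : 2 ≤ A) :
    ∃ δ : ℝ, 0 < δ ∧ ∃ X₀ : ℕ, ∀ X : ℕ, X₀ ≤ X → ∃ κ : ℝ, 0 < κ ∧ ∃ N₀ : ℕ,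
      (∀ n : ℕ, N₀ ≤ n → ¬ 4 ∣ n → ∀ H ∈ (range (X + 1)).powersetCard k,
        (∀ q : ℕ, q.Prime → ∃ v : ℕ, ∀ h ∈ H, ¬ q ∣ v + h) →
          ∃ P ∈ H.powersetCard r, Good κ (c₀ / 4 / 2) k n H P) ∧
      ∃ W : ℕ → Finset (Finset ℕ),
        (∀ N : ℕ, N₀ ≤ N → W N ⊆ (range (X + 1)).powersetCard r ∧
          δ * (X : ℝ) ^ r ≤ ((W N).card : ℝ) ∧
          ∀ P ∈ W N, ∀ n : ℕ, ¬ 4 ∣ n → N ≤ n → n ≤ A * N →
            ∃ H ∈ (range (X + 1)).powersetCard k, P ⊆ H ∧ Good κ (c₀ / 4 / 2) k n H P) ∧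
        ∃ U ⊆ (range (X + 1)).powersetCard r, δ * (X : ℝ) ^ r ≤ (U.card : ℝ) ∧ ∀ P ∈ U,
          ∃ᶠ J : ℕ in atTop,
            δ * (J : ℝ) ≤ (((range J).filter fun j => P ∈ W (A ^ j)).card : ℝ) := by
  classical
  have hwide := fun H hkH hadm => wide (r := r) hc₀ hmt H hkH hadm
  have hfac : 0 < k.factorial := k.factorial_pos
  -- `r ≤ k`
  have hrk : r ≤ k := by
    set H : Finset ℕ := (range k).image fun j => j * k.factorial with hH
    have hHk : H.card = k := by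
      rw [hH, card_image_of_injective _ (fun i j hij => Nat.eq_of_mul_eq_mul_right hfac hij),
        card_range]
    obtain ⟨κ, hκ, n₀, h⟩ := hwide H hHk (admissible hHk fun h hh => by
      obtain ⟨j, -, rfl⟩ := mem_image.1 hh
      exact Dvd.intro_left j rfl)
    obtain ⟨T, hT, hm⟩ := h (n₀ + 5) (by omega)
    have hlog : 0 < Real.log ((n₀ + 5 : ℕ) : ℝ) := Real.log_pos (by
      push_cast
      have : (0 : ℝ) ≤ n₀ := Nat.cast_nonneg _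
      linarith)
    have hsq : 0 < √((n₀ + 5 : ℕ) : ℝ) := Real.sqrt_pos.2 (by positivity)
    have hpos : 0 < κ * √((n₀ + 5 : ℕ) : ℝ) / Real.log ((n₀ + 5 : ℕ) : ℝ) ^ k := by
      positivity
    have hTc : 0 < T.card := by
      have := lt_of_lt_of_le hpos hT
      exact_mod_cast this
    obtain ⟨m, hmT⟩ := card_pos.1 hTc
    calc r ≤ (H.filter (fun h => (m + h).Prime)).card := (hm m hmT).2
      _ ≤ H.card := card_filter_le _ _
      _ = k := hHk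
  -- the number of windows and the Ramsey number
  obtain ⟨L, hL⟩ := pow_unbounded_of_one_lt (A : ℝ) (show (1 : ℝ) < 1.03 by norm_num)
  obtain ⟨K, hK⟩ := common_pattern L hrk
  have hrK : r ≤ K := by
    obtain ⟨P, hP, hPr, -⟩ := hK (range K) (card_range K) (fun _ _ => True)
      (fun i H _ hHk => by
        obtain ⟨P, hPH, hPr⟩ := exists_subset_card_eq (show r ≤ H.card by omega)
        exact ⟨P, hPH, hPr, trivial⟩)
    have := card_le_card hP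
    rw [hPr, card_range] at this
    exact this
  obtain ⟨δ, hδ, X₀, hmany⟩ := many_patterns hrK
  refine ⟨δ / 2 ^ r / 4, by positivity, X₀ + 1, fun X hX => ?_⟩
  -- the admissible sets
  set 𝒜 := ((range (X + 1)).powersetCard k).filter fun H =>
    ∀ q : ℕ, q.Prime → ∃ v : ℕ, ∀ h ∈ H, ¬ q ∣ v + h with h𝒜
  have hdata : ∀ H ∈ 𝒜, ∃ κ : ℝ, 0 < κ ∧ ∃ n₀ : ℕ, ∀ n : ℕ, n₀ ≤ n → ∃ T : Finset ℕ,
      κ * √(n : ℝ) / Real.log n ^ k ≤ (T.card : ℝ) ∧ ∀ m ∈ T,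
        (∀ h ∈ H, Win (c₀ / 4) n (m + h)) ∧ r ≤ (H.filter (fun h => (m + h).Prime)).card := by
    intro H hH
    obtain ⟨hH1, hH2⟩ := mem_filter.1 hH
    exact hwide H (mem_powersetCard.1 hH1).2 hH2
  choose! κ hκ n₀ hn₀ using hdata
  obtain ⟨x, hx, hxκ⟩ := exists_pos_le 𝒜 κ hκ
  have hc0 : (0 : ℝ) < (k.choose r : ℝ) := by exact_mod_cast Nat.choose_pos hrk
  set κ' : ℝ := x / (k.choose r : ℝ) with hκ'
  have hκ'0 : 0 < κ' := by positivity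
  -- the patterns of the window at `M`
  set SG : ℕ → Finset ℕ → Finset ℕ → Prop := fun M H P => ∃ T : Finset ℕ,
    κ' * √(M : ℝ) / Real.log M ^ k ≤ (T.card : ℝ) ∧
      ∀ m ∈ T, (∀ h ∈ P, (m + h).Prime) ∧ ∀ h ∈ H, Win (c₀ / 4) M (m + h) with hSG
  have hall : ∀ M : ℕ, 𝒜.sup n₀ ≤ M → ∀ H ∈ 𝒜, ∃ P ∈ H.powersetCard r, SG M H P := by
    intro M hM H hH
    obtain ⟨hH1, hH2⟩ := mem_filter.1 hH
    obtain ⟨hH3, hH4⟩ := mem_powersetCard.1 hH1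
    obtain ⟨T, hT1, hT2⟩ := hn₀ H hH M ((le_sup hH).trans hM)
    obtain ⟨P, hP, T', hT'1, hT'2⟩ := one_set_all (val := Win (c₀ / 4) M) hH4 hrk hT1 hT2
    refine ⟨P, hP, T', le_trans ?_ hT'1, hT'2⟩
    have hF : 0 ≤ √(M : ℝ) / Real.log M ^ k :=
      div_nonneg (Real.sqrt_nonneg _) (pow_nonneg (Real.log_natCast_nonneg M) k)
    calc κ' * √(M : ℝ) / Real.log M ^ k
        = (x * (√(M : ℝ) / Real.log M ^ k)) / (k.choose r : ℝ) := by
          rw [hκ']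
          ring
      _ ≤ (κ H * (√(M : ℝ) / Real.log M ^ k)) / (k.choose r : ℝ) := by
          gcongr
          exact hxκ H hH
      _ = κ H * √(M : ℝ) / Real.log M ^ k / (k.choose r : ℝ) := by ring
  set N₀ : ℕ := max 3 (𝒜.sup n₀) with hN₀
  have hN₀3 : 3 ≤ N₀ := le_max_left _ _
  have hN₀s : 𝒜.sup n₀ ≤ N₀ := le_max_right _ _
  have hgood : ∀ M : ℕ, N₀ ≤ M → ∀ n : ℕ, M ≤ n → 100 * n ≤ 103 * M → ¬ 4 ∣ n →
      ∀ H P : Finset ℕ, SG M H P → Good (κ' / 2) (c₀ / 4 / 2) k n H P := by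
    rintro M hM n hMn hnM h4 H P ⟨T, hT1, hT2⟩
    exact transfer hκ'0 (by positivity) (hN₀3.trans hM) hMn hnM h4 hT1 hT2
  set W : ℕ → Finset (Finset ℕ) := fun N => ((range (X + 1)).powersetCard r).filter fun P =>
    ∀ n : ℕ, ¬ 4 ∣ n → N ≤ n → n ≤ A * N →
      ∃ H ∈ (range (X + 1)).powersetCard k, P ⊆ H ∧ Good (κ' / 2) (c₀ / 4 / 2) k n H P with hW
  have hcard : ∀ N : ℕ, N₀ ≤ N → δ * (X : ℝ) ^ r ≤ ((W N).card : ℝ) := by
    intro N hN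
    refine hmany X (by omega) (W N) (filter_subset _ _) fun S hS hadm => ?_
    obtain ⟨hSX, hSK⟩ := mem_powersetCard.1 hS
    obtain ⟨P, hPS, hPr, hPG⟩ := hK S hSK
      (fun i P => ∃ H ∈ (range (X + 1)).powersetCard k, P ⊆ H ∧
        (N₀ ≤ ⌈(1.03 : ℝ) ^ (i : ℕ) * N⌉₊ → SG ⌈(1.03 : ℝ) ^ (i : ℕ) * N⌉₊ H P))
      (fun i H hHS hHk => by
        have hHX : H ∈ (range (X + 1)).powersetCard k := mem_powersetCard.2 ⟨hHS.trans hSX, hHk⟩
        by_cases hM : N₀ ≤ ⌈(1.03 : ℝ) ^ (i : ℕ) * N⌉₊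
        · obtain ⟨P, hP, hSGP⟩ := hall ⌈(1.03 : ℝ) ^ (i : ℕ) * N⌉₊ (hN₀s.trans hM) H
            (mem_filter.2 ⟨hHX, fun q hq => by
              obtain ⟨v, hv⟩ := hadm q hq
              exact ⟨v, fun h hh => hv h (hHS hh)⟩⟩)
          obtain ⟨hP1, hP2⟩ := mem_powersetCard.1 hP
          exact ⟨P, hP1, hP2, H, hHX, hP1, fun _ => hSGP⟩
        · obtain ⟨P, hPH, hPr⟩ := exists_subset_card_eq (show r ≤ H.card by omega)
          exact ⟨P, hPH, hPr, H, hHX, hPH, fun h => absurd h hM⟩)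
    refine ⟨P, mem_filter.2 ⟨mem_powersetCard.2 ⟨hPS.trans hSX, hPr⟩, fun n h4 hNn hnA => ?_⟩, hPS⟩
    obtain ⟨i, hi1, hi2, hi3⟩ := cover hL (by omega) hNn hnA
    obtain ⟨H, hH, hPH, hSGP⟩ := hPG i
    exact ⟨H, hH, hPH, hgood _ (hN.trans hi1) n hi2 hi3 h4 H P (hSGP (hN.trans hi1))⟩
  have hXr : (0 : ℝ) ≤ (X : ℝ) ^ r := by positivity
  have h2r : (1 : ℝ) ≤ 2 ^ r := one_le_pow₀ (by norm_num)
  have hδ' : δ / 2 ^ r / 4 ≤ δ := by
    rw [div_div, div_le_iff₀ (by positivity)]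
    nlinarith
  -- the fixed patterns
  have hPP : (((range (X + 1)).powersetCard r).card : ℝ) ≤ ((X : ℝ) + 1) ^ r := by
    rw [card_powersetCard, card_range]
    exact_mod_cast Nat.choose_le_pow _ _
  have hX1 : (1 : ℝ) ≤ X := by
    have : 1 ≤ X := by omega
    exact_mod_cast this
  have hXX : ((X : ℝ) + 1) ^ r ≤ 2 ^ r * (X : ℝ) ^ r := by
    rw [← mul_pow]
    exact pow_le_pow_left₀ (by positivity) (by linarith) r
  have hXX' : (X : ℝ) ^ r ≤ ((X : ℝ) + 1) ^ r := pow_le_pow_left₀ (by positivity) (by linarith) r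
  have hs : Tendsto (fun j : ℕ => A ^ j) atTop atTop :=
    tendsto_pow_atTop_atTop_of_one_lt (by omega)
  obtain ⟨U, hU1, hU2, hU3⟩ := many_scales (N₀ := N₀) (W := W) (δ := δ / 2 ^ r) hPP
    (by positivity) (fun N hN => ⟨filter_subset _ _, le_trans (by
      calc δ / 2 ^ r * ((X : ℝ) + 1) ^ r ≤ δ / 2 ^ r * (2 ^ r * (X : ℝ) ^ r) := by gcongr
        _ = δ * (X : ℝ) ^ r := by field_simp) (hcard N hN)⟩) hs
  refine ⟨κ' / 2, by positivity, N₀, fun n hn h4 H hH hadm => ?_, W, fun N hN =>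
    ⟨filter_subset _ _, ?_, fun P hP => (mem_filter.1 hP).2⟩, U, hU1, ?_, hU3⟩
  · obtain ⟨P, hP, hSGP⟩ := hall n (hN₀s.trans hn) H (mem_filter.2 ⟨hH, hadm⟩)
    exact ⟨P, hP, hgood n hn n le_rfl (by omega) h4 H P hSGP⟩
  · exact le_trans (mul_le_mul_of_nonneg_right hδ' hXr) (hcard N hN)
  · refine le_trans ?_ hU2
    exact mul_le_mul_of_nonneg_left hXX' (by positivity)

/-- **Theorem.** -/
theorem result (r : ℕ) : ∃ k : ℕ, ∃ c : ℝ, 0 < c ∧ ∀ A : ℕ, 2 ≤ A →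
    ∃ δ : ℝ, 0 < δ ∧ ∃ X₀ : ℕ, ∀ X : ℕ, X₀ ≤ X → ∃ κ : ℝ, 0 < κ ∧ ∃ N₀ : ℕ,
      (∀ n : ℕ, N₀ ≤ n → ¬ 4 ∣ n → ∀ H ∈ (range (X + 1)).powersetCard k,
        (∀ q : ℕ, q.Prime → ∃ v : ℕ, ∀ h ∈ H, ¬ q ∣ v + h) →
          ∃ P ∈ H.powersetCard r, Good κ c k n H P) ∧
      ∃ W : ℕ → Finset (Finset ℕ),
        (∀ N : ℕ, N₀ ≤ N → W N ⊆ (range (X + 1)).powersetCard r ∧
          δ * (X : ℝ) ^ r ≤ ((W N).card : ℝ) ∧
          ∀ P ∈ W N, ∀ n : ℕ, ¬ 4 ∣ n → N ≤ n → n ≤ A * N →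
            ∃ H ∈ (range (X + 1)).powersetCard k, P ⊆ H ∧ Good κ c k n H P) ∧
        ∃ U ⊆ (range (X + 1)).powersetCard r, δ * (X : ℝ) ^ r ≤ (U.card : ℝ) ∧ ∀ P ∈ U,
          ∃ᶠ J : ℕ in atTop,
            δ * (J : ℝ) ≤ (((range J).filter fun j => P ∈ W (A ^ j)).card : ℝ) := by
  obtain ⟨k, -, c₀, hc₀, D₁, hmt⟩ := maynard_rough r
  exact ⟨k, c₀ / 4 / 2, by positivity, fun A hA => assembly hc₀ hmt A hA⟩

end Pool.Agent.Results.MP_40574a_nt.PrimePatterns
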